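import Mathlib

namespace Pool.Agent.Results.MP_451208_an.NotSurj

open Set Topology

/-- the shift `σ(x)_n = x_{n+1}` -/
def sh {A : Type} (x : ℤ → A) : ℤ → A := fun n => x (n + 1)

abbrev B := Bool × Bool × Bool

def XX : Set (ℤ → B) :=
  {x | ∀ i k : ℤ, 1 ≤ k → ¬ ((x i).1 = true ∧ (x (i - k)).2.2 = true ∧ (x (i + k)).2.1 = true)}

def ta (x : ℤ → B) : ℤ → B := fun i => ((x i).1, (x (i + 1)).2.1, (x (i - 1)).2.2)

lemma sh_iter {A : Type} (n : ℕ) (x : ℤ → A) (i : ℤ) : (sh^[n] x) i = x (i + n) := by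
  induction n generalizing i with
  | zero => simp
  | succ n ih =>
    rw [Function.iterate_succ_apply']
    show (sh^[n] x) (i + 1) = _
    rw [ih]; congr 1; push_cast; ring

lemma closed : IsClosed XX := by
  have : XX = ⋂ i : ℤ, ⋂ k : ℤ, ⋂ _ : 1 ≤ k, (fun x : ℤ → B => (x i, x (i - k), x (i + k))) ⁻¹'
      {p : B × B × B | ¬ (p.1.1 = true ∧ p.2.1.2.2 = true ∧ p.2.2.2.1 = true)} := by
    ext x; simp only [XX, mem_iInter, mem_preimage]; rfl
  rw [this]
  refine isClosed_iInter fun i => isClosed_iInter fun k => isClosed_iInter fun _ => ?_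
  exact (isClosed_discrete _).preimage (by fun_prop)

lemma mem_shift (x : ℤ → B) (hx : x ∈ XX) (c : ℤ) : (fun n => x (n + c)) ∈ XX := by
  intro i k hk h
  refine hx (i + c) k hk ?_
  have e1 : i + c - k = i - k + c := by ring
  have e2 : i + c + k = i + k + c := by ring
  rw [e1, e2]; exact h

lemma image_sh : sh '' XX = XX := by
  ext y
  constructor
  · rintro ⟨x, hx, rfl⟩; exact mem_shift x hx 1
  · intro hy
    refine ⟨fun n => y (n + (-1)), mem_shift y hy (-1), ?_⟩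
    funext n; simp [sh]

lemma cyl (U : Set (ℤ → B)) (hU : IsOpen U) (x : ℤ → B) (hx : x ∈ U) :
    ∃ a : ℕ, ∀ z : ℤ → B, (∀ i : ℤ, -(a : ℤ) ≤ i → i ≤ a → z i = x i) → z ∈ U := by
  obtain ⟨I, u, hu, hI⟩ := isOpen_pi_iff.1 hU x hx
  refine ⟨I.sup Int.natAbs, fun z hz => hI ?_⟩
  intro i hi
  have h1 : i.natAbs ≤ I.sup Int.natAbs := Finset.le_sup (f := Int.natAbs) hi
  rw [hz i (by omega) (by omega)]
  exact (hu i hi).2

lemma mix (U V : Set (ℤ → B)) (hU : IsOpen U) (hV : IsOpen V) (h1 : (U ∩ XX).Nonempty)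
    (h2 : (V ∩ XX).Nonempty) :
    ∃ N : ℕ, ∀ n ≥ N, ((sh^[n] '' (U ∩ XX)) ∩ (V ∩ XX)).Nonempty := by
  obtain ⟨x, hxU, hx⟩ := h1
  obtain ⟨y, hyV, hy⟩ := h2
  obtain ⟨a, ha⟩ := cyl U hU x hxU
  obtain ⟨b, hb⟩ := cyl V hV y hyV
  refine ⟨3 * a + 3 * b + 1, fun n hn => ?_⟩
  classical
  let z : ℤ → B := fun i => if -(a : ℤ) ≤ i ∧ i ≤ a then x i else
    if -(b : ℤ) ≤ i - n ∧ i - n ≤ b then y (i - n) else (false, false, false)
  have hz : z ∈ XX := by
    rintro i k hk ⟨p, q, r⟩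
    simp only [z] at p q r
    split_ifs at p q r with c1 c2 c3 c4 c5 c6 c7 c8 c9 c10 c11 c12 c13 c14 c15 c16 <;>
      first
      | (exfalso; omega)
      | exact hx i k hk ⟨p, q, r⟩
      | (simp at p; done)
      | (simp at q; done)
      | (simp at r; done)
      | (refine hy (i - n) k hk ⟨p, ?_, ?_⟩
         · rw [show i - n - k = i - k - n by ring]; exact q
         · rw [show i - n + k = i + k - n by ring]; exact r)
  have hzn : sh^[n] z ∈ XX := by
    have : sh^[n] z = fun i => z (i + n) := funext fun i => sh_iter n z i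
    rw [this]; exact mem_shift z hz n
  refine ⟨sh^[n] z, ⟨z, ⟨ha z fun i h h' => ?_, hz⟩, rfl⟩, hb _ fun i h h' => ?_, hzn⟩
  · simp only [z]; rw [if_pos ⟨h, h'⟩]
  · rw [sh_iter]; simp only [z]
    rw [if_neg (by omega), if_pos (by omega)]; congr 1; ring

theorem result : ∃ (A : Type) (_ : Fintype A) (_ : TopologicalSpace A) (_ : DiscreteTopology A)
    (X : Set (ℤ → A)), IsClosed X ∧ sh '' X = X ∧ X.Nonempty ∧
    (∀ U V : Set (ℤ → A), IsOpen U → IsOpen V → (U ∩ X).Nonempty → (V ∩ X).Nonempty →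
      ∃ N : ℕ, ∀ n ≥ N, ((sh^[n] '' (U ∩ X)) ∩ (V ∩ X)).Nonempty) ∧
    ∃ τ : (ℤ → A) → (ℤ → A), MapsTo τ X X ∧ ContinuousOn τ X ∧
      (∀ x ∈ X, τ (sh x) = sh (τ x)) ∧ InjOn τ X ∧ τ '' X ≠ X := by
  refine ⟨B, inferInstance, inferInstance, inferInstance, XX, closed, image_sh,
    ⟨fun _ => (false, false, false), fun i k _ h => by simp at h⟩, mix, ta, ?_, ?_, ?_, ?_, ?_⟩
  · rintro x hx i k hk ⟨p, q, r⟩
    refine hx i (k + 1) (by omega) ⟨p, ?_, ?_⟩
    · rw [show i - (k + 1) = i - k - 1 by ring]; exact q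
    · rw [show i + (k + 1) = i + k + 1 by ring]; exact r
  · refine Continuous.continuousOn ?_
    unfold ta; fun_prop
  · intro x _
    funext i
    simp only [ta, sh]
    rw [show i - 1 + 1 = i + 1 - 1 by ring]
  · intro x _ y _ h
    funext i
    have a := congrArg (fun p : B => p.1) (congrFun h i)
    have b := congrArg (fun p : B => p.2.1) (congrFun h (i - 1))
    have c := congrArg (fun p : B => p.2.2) (congrFun h (i + 1))
    simp only [ta, sub_add_cancel, add_sub_cancel_right] at a b c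
    exact Prod.ext a (Prod.ext b c)
  · intro h
    classical
    have hy : (fun i : ℤ => if i = 0 then ((true, true, true) : B) else (false, false, false)) ∈ XX := by
      rintro i k hk ⟨p, q, _⟩
      have h0 : i = 0 := by by_contra h; simp [h] at p
      have h1 : i - k = 0 := by by_contra h; simp [h] at q
      omega
    rw [← h] at hy
    obtain ⟨x, hx, e⟩ := hy
    have e0 := congrFun e 0
    simp only [ta, if_true, Prod.mk.injEq] at e0
    exact hx 0 1 le_rfl ⟨e0.1, e0.2.2, e0.2.1⟩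

end Pool.Agent.Results.MP_451208_an.NotSurj
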